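import Mathlib
import Pool.Agent.Helper65.HF.StN
import Pool.Agent.Helper45.ShPoly
import Pool.Agent.Helper45.ShPolar
import Pool.Agent.Helper45.FatHilb

/-!
Modules BAS and EXA of project HF.
-/

namespace Pool.Agent.Helper63.HF

open MvPolynomial Pool.Agent.Helper45 Pool.Agent.Helper65.HF

section BAS

variable {k : Type} [Field k] {N : ℕ}

theorem setPart_zero {r : ℕ} (f : Fin r → MvPolynomial (Fin N) k) :
    Gr.setPart f Finset.univ 0 = Submodule.span k (Set.range f) := by
  rw [Gr.setPart_eq_span]
  refine le_antisymm (Submodule.span_le.2 ?_) (Submodule.span_le.2 ?_)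
  · rintro _ ⟨⟨a, v, hv⟩, rfl⟩
    have hv0 : v = 0 := (Finsupp.degree_eq_zero_iff v).1 hv
    subst hv0
    refine Submodule.subset_span ⟨a.1, ?_⟩
    simp
  · rintro _ ⟨a, rfl⟩
    refine Submodule.subset_span ⟨(⟨a, Finset.mem_univ a⟩, ⟨0, by simp⟩), ?_⟩
    simp

theorem X_eq_lin (i : Fin N) : (X i : MvPolynomial (Fin N) k) = linForm (Pi.single i 1) := by
  unfold linForm
  rw [Finset.sum_eq_single i]
  · simp
  · intro b _ hb
    rw [Pi.single_eq_of_ne hb, C_0, zero_mul]
  · intro h
    exact absurd (Finset.mem_univ i) h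

theorem sum_lin {ι : Type} (S : Finset ι) (s : ι → Fin N) :
    ∃ p : Fin N → k, ∑ l ∈ S, (X (s l) : MvPolynomial (Fin N) k) = linForm p := by
  classical
  induction S using Finset.induction_on with
  | empty =>
    refine ⟨0, ?_⟩
    unfold linForm
    simp
  | insert a S ha ih =>
    obtain ⟨p, hp⟩ := ih
    refine ⟨Pi.single (s a) 1 + p, ?_⟩
    rw [Finset.sum_insert ha, hp, X_eq_lin]
    unfold linForm
    rw [← Finset.sum_add_distrib]
    refine Finset.sum_congr rfl fun i _ => ?_
    rw [Pi.add_apply, C_add, add_mul]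

theorem span_pow [CharZero k] (j : ℕ) :
    Submodule.span k (Set.range fun p : Fin N → k => (linForm p : MvPolynomial (Fin N) k) ^ j) =
      homogeneousSubmodule (Fin N) k j := by
  refine le_antisymm (Submodule.span_le.2 ?_) ?_
  · rintro _ ⟨p, rfl⟩
    have := (linForm_isHomogeneous p).pow j
    rw [one_mul] at this
    exact this
  · intro f hf
    rw [mem_homogeneousSubmodule] at hf
    rw [← support_sum_monomial_coeff f]
    refine Submodule.sum_mem _ fun v hv => ?_
    have hdeg : v.degree = j := by
      by_contra h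
      exact (mem_support_iff.1 hv) (IsHomogeneous.coeff_eq_zero hf h)
    have e1 : (monomial v (coeff v f) : MvPolynomial (Fin N) k) =
        coeff v f • monomial v 1 := by
      rw [smul_monomial, smul_eq_mul, mul_one]
    rw [e1]
    refine Submodule.smul_mem _ _ ?_
    obtain ⟨s, hs⟩ := monomial_eq_prod (k := k) v hdeg
    rw [hs]
    refine (Submodule.span_le.2 ?_) (prod_mem_span_pow (k := k)
      (fun l => (X (s l) : MvPolynomial (Fin N) k)))
    rintro _ ⟨S, rfl⟩
    obtain ⟨p, hp⟩ := sum_lin (k := k) S s
    refine Submodule.subset_span ⟨p, ?_⟩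
    simp only [hp]

theorem hBAS : sBAS := by
  intro k _ _ j N r hj hr
  refine le_antisymm ?_ ?_
  · obtain ⟨P, hP⟩ := Gr.gen_attained (k := k) (σ := Fin N) j 0 r
    rw [← hP, setPart_zero]
    have := finrank_range_le_card (R := k) (Gr.pw P j)
    rwa [Fintype.card_fin] at this
  · set S : Set (MvPolynomial (Fin N) k) :=
      Set.range fun p : Fin N → k => (linForm p : MvPolynomial (Fin N) k) ^ j with hS
    obtain ⟨b, hbS, hbs, hbl⟩ := exists_linearIndependent k S
    rw [hS, span_pow] at hbs
    have hb' : Submodule.span k (Set.range (Subtype.val : b → MvPolynomial (Fin N) k)) =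
        homogeneousSubmodule (Fin N) k j := by
      rw [Subtype.range_coe]
      exact hbs
    have B := Module.Basis.span hbl
    rw [hb'] at B
    haveI : Finite b := Module.Finite.finite_basis B
    haveI := Fintype.ofFinite b
    have hcard : Fintype.card b = (N + j - 1).choose j := by
      rw [← Module.finrank_eq_card_basis B, finrank_homog, Fintype.card_fin]
    have hle : Fintype.card (Fin r) ≤ Fintype.card b := by
      rw [Fintype.card_fin, hcard]
      exact hr
    obtain ⟨φ⟩ := Function.Embedding.nonempty_of_card_le hle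
    have hch : ∀ a : Fin r, ∃ p : Fin N → k,
        (linForm p : MvPolynomial (Fin N) k) ^ j = (φ a : MvPolynomial (Fin N) k) :=
      fun a => hbS (φ a).2
    choose P hP using hch
    have e : Gr.pw P j = fun a => (φ a : MvPolynomial (Fin N) k) := by
      funext a
      exact hP a
    have hli : LinearIndependent k (Gr.pw P j) := by
      rw [e]
      exact hbl.comp φ φ.injective
    have h1 := Gr.le_gen (k := k) (σ := Fin N) j 0 P Finset.univ
    rw [setPart_zero, finrank_span_eq_card hli, Finset.card_univ, Fintype.card_fin] at h1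
    exact h1

end BAS

end Pool.Agent.Helper63.HF
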