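import Mathlib
import Pool.Agent.Helper65.HF.StC

/-!
Modules SPL and DEC of project HF.
-/

namespace Pool.Agent.Helper63.HF

open Pool.Agent.Helper65.HF

theorem last_cases (τ : List ℕ) (a : ℕ) :
    (τ = [] ∧ τ.getLastD a = a) ∨ τ.getLastD a ∈ τ := by
  rcases List.eq_nil_or_concat τ with h | ⟨l, b, h⟩
  · left
    subst h
    simp
  · right
    rw [List.concat_eq_append] at h
    subst h
    rw [List.getLastD_concat]
    simp

theorem le_last {τ : List ℕ} (a : ℕ) (h : Srt τ) : ∀ x ∈ τ, x ≤ τ.getLastD a := by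
  rcases List.eq_nil_or_concat τ with h' | ⟨l, b, h'⟩
  · subst h'
    simp
  · rw [List.concat_eq_append] at h'
    subst h'
    rw [List.getLastD_concat]
    intro x hx
    rw [List.mem_append] at hx
    rcases hx with hx | hx
    · exact (List.pairwise_append.1 h).2.2 x hx b (by simp)
    · rw [List.mem_singleton] at hx
      exact hx.le

theorem getD_left {τ σ : List ℕ} {w : ℕ} (h : w < τ.length) :
    (τ ++ σ).getD w 0 = τ.getD w 0 := by
  rw [List.getD_append _ _ _ _ h]

theorem getD_right {τ σ : List ℕ} {w : ℕ} :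
    (τ ++ σ).getD (τ.length + w) 0 = σ.getD w 0 := by
  rw [List.getD_append_right _ _ _ _ (Nat.le_add_right _ _), Nat.add_sub_cancel_left]

theorem mem_tl_append {M : ℕ} {ν : ℕ → ℕ} {i t u a : ℕ} {τ σ : List ℕ} (hτ : τ.length = t) :
    τ ++ σ ∈ tl M ν i (t + u) a ↔
      τ ∈ tl M ν i t a ∧ σ ∈ tl M ν (i + t) u (τ.getLastD a) := by
  have hpa : Srt (τ ++ σ) ↔ Srt τ ∧ Srt σ ∧ ∀ x ∈ τ, ∀ y ∈ σ, x ≤ y :=
    List.pairwise_append
  rw [mem_tl, mem_tl, mem_tl, List.length_append, hpa]
  subst hτ
  constructor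
  · rintro ⟨⟨h1, ⟨h2, h3, h4⟩, h5⟩, h6, h7⟩
    have hu : σ.length = u := by omega
    refine ⟨⟨⟨rfl, h2, fun x hx => h5 x (List.mem_append_left _ hx)⟩,
      fun x hx => h6 x (List.mem_append_left _ hx), ?_⟩,
      ⟨hu, h3, fun x hx => h5 x (List.mem_append_right _ hx)⟩, ?_, ?_⟩
    · intro w hw
      have := h7 w (by omega)
      rwa [getD_left hw] at this
    · intro y hy
      rcases last_cases τ a with ⟨_, h⟩ | h
      · rw [h]
        exact h6 y (List.mem_append_right _ hy)
      · exact h4 _ h y hy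
    · intro w hw
      have := h7 (τ.length + w) (by omega)
      rw [getD_right] at this
      have e : i + (τ.length + w) + 1 = i + τ.length + w + 1 := by omega
      rwa [e] at this
  · rintro ⟨⟨⟨_, h2, h5⟩, h6, h7⟩, ⟨hu, h3, h5'⟩, h6', h7'⟩
    refine ⟨⟨by omega, ⟨h2, h3, ?_⟩, ?_⟩, ?_, ?_⟩
    · intro x hx y hy
      exact (le_last a h2 x hx).trans (h6' y hy)
    · intro x hx
      rw [List.mem_append] at hx
      exact hx.elim (h5 x) (h5' x)
    · intro x hx
      rw [List.mem_append] at hx
      rcases hx with hx | hx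
      · exact h6 x hx
      · refine le_trans ?_ (h6' x hx)
        rcases last_cases τ a with ⟨_, h⟩ | h
        · rw [h]
        · exact h6 _ h
    · intro w hw
      rcases lt_or_ge w τ.length with h | h
      · rw [getD_left h]
        exact h7 w h
      · obtain ⟨v, rfl⟩ := Nat.exists_eq_add_of_le h
        rw [getD_right]
        have := h7' v (by omega)
        have e : i + (τ.length + v) + 1 = i + τ.length + v + 1 := by omega
        rwa [e]

theorem hSPL : sSPL := by
  classical
  intro M ν i t u a Z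
  unfold num
  rw [← Finset.card_sigma]
  refine Finset.card_bij' (fun v _ => (⟨v.take t, v.drop t⟩ : (_ : List ℕ) × List ℕ))
    (fun p _ => p.1 ++ p.2) ?_ ?_ ?_ ?_
  · intro v hv
    rw [Finset.mem_filter] at hv
    have hl : v.length = t + u := (mem_tl.1 hv.1).1.1
    have ht : (v.take t).length = t := by
      rw [List.length_take]
      omega
    rw [Finset.mem_sigma, Finset.mem_filter]
    have h1 : v.take t ++ v.drop t ∈ tl M ν i (t + u) a := by
      rw [List.take_append_drop]
      exact hv.1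
    rw [mem_tl_append ht] at h1
    refine ⟨h1.1, h1.2, ?_⟩
    show Z (v.take t ++ v.drop t)
    rw [List.take_append_drop]
    exact hv.2
  · intro p hp
    rw [Finset.mem_sigma, Finset.mem_filter] at hp
    obtain ⟨h1, h2, h3⟩ := hp
    rw [Finset.mem_filter]
    exact ⟨(mem_tl_append (mem_tl.1 h1).1.1).2 ⟨h1, h2⟩, h3⟩
  · intro v hv
    exact List.take_append_drop t v
  · intro p hp
    rw [Finset.mem_sigma, Finset.mem_filter] at hp
    have h1 := (mem_tl.1 hp.1).1.1
    obtain ⟨p1, p2⟩ := p
    simp only at h1 ⊢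
    subst h1
    simp

end Pool.Agent.Helper63.HF
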