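import Mathlib
import Pool.Agent.Helper63.HF.M_SPL

/-!
Module DEC of project HF.
-/

namespace Pool.Agent.Helper63.HF

open Pool.Agent.Helper65.HF

open Classical in
/-- The last irregular position. -/
noncomputable def pos (ν : ℕ → ℕ) (c : ℕ) (l : List ℕ) : ℕ :=
  Nat.findGreatest (fun i => l.getD (i - 1) 0 < ν i) c

theorem mem_dec {M : ℕ} {ν : ℕ → ℕ} {c i : ℕ} (hi : i ≤ c) {p τ : List ℕ} (hp : p.length = i) :
    (p ++ τ ∈ srt M c ∧ pos ν c (p ++ τ) = i) ↔
      p ∈ irr M ν i ∧ τ ∈ tl M ν i (c - i) (p.getLastD 0) := by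
  classical
  have hpa : Srt (p ++ τ) ↔ Srt p ∧ Srt τ ∧ ∀ x ∈ p, ∀ y ∈ τ, x ≤ y :=
    List.pairwise_append
  rw [mem_srt, mem_irr, mem_tl, List.length_append, hpa]
  unfold pos
  rw [Nat.findGreatest_eq_iff]
  subst hp
  constructor
  · rintro ⟨⟨h1, ⟨h2, h3, h4⟩, h5⟩, h6, h7, h8⟩
    refine ⟨⟨⟨rfl, h2, fun x hx => h5 x (List.mem_append_left _ hx)⟩, ?_⟩,
      ⟨by omega, h3, fun x hx => h5 x (List.mem_append_right _ hx)⟩, ?_, ?_⟩
    · rcases Nat.eq_zero_or_pos p.length with h | h
      · exact Or.inl h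
      · right
        have := h7 (by omega)
        rwa [getD_left (by omega)] at this
    · intro y hy
      rcases last_cases p 0 with ⟨_, h⟩ | h
      · rw [h]
        exact Nat.zero_le _
      · exact h4 _ h y hy
    · intro w hw
      have := h8 (n := p.length + w + 1) (by omega) (by omega)
      rw [Nat.add_sub_cancel, getD_right] at this
      exact not_lt.1 this
  · rintro ⟨⟨⟨_, h2, h5⟩, h6⟩, ⟨hu, h3, h5'⟩, h6', h7'⟩
    refine ⟨⟨by omega, ⟨h2, h3, ?_⟩, ?_⟩, hi, ?_, ?_⟩
    · intro x hx y hy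
      exact (le_last 0 h2 x hx).trans (h6' y hy)
    · intro x hx
      rw [List.mem_append] at hx
      exact hx.elim (h5 x) (h5' x)
    · intro h
      rw [getD_left (by omega)]
      exact h6.resolve_left h
    · intro n hn hn' h
      obtain ⟨w, rfl⟩ := Nat.exists_eq_add_of_lt hn
      rw [Nat.add_sub_cancel, getD_right] at h
      exact absurd (h7' w (by omega)) (not_le.2 h)

theorem hDEC : sDEC := by
  classical
  intro M ν c Z
  have h0 : num (srt M c) Z = ∑ i ∈ Finset.range (c + 1),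
      (((srt M c).filter Z).filter (fun l => pos ν c l = i)).card := by
    unfold num
    refine Finset.card_eq_sum_card_fiberwise (f := pos ν c) ?_
    intro l hl
    rw [Finset.coe_range, Set.mem_Iio]
    exact Nat.lt_succ_of_le (Nat.findGreatest_le _)
  rw [h0]
  refine Finset.sum_congr rfl fun i hi => ?_
  have hi' : i ≤ c := Nat.lt_succ_iff.1 (Finset.mem_range.1 hi)
  unfold num
  rw [← Finset.card_sigma]
  refine Finset.card_bij' (fun v _ => (⟨v.take i, v.drop i⟩ : (_ : List ℕ) × List ℕ))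
    (fun p _ => p.1 ++ p.2) ?_ ?_ ?_ ?_
  · intro v hv
    rw [Finset.mem_filter, Finset.mem_filter] at hv
    have hl : v.length = c := (mem_srt.1 hv.1.1).1
    have ht : (v.take i).length = i := by
      rw [List.length_take]
      omega
    rw [Finset.mem_sigma, Finset.mem_filter]
    have h1 : v.take i ++ v.drop i ∈ srt M c ∧ pos ν c (v.take i ++ v.drop i) = i := by
      rw [List.take_append_drop]
      exact ⟨hv.1.1, hv.2⟩
    rw [mem_dec hi' ht] at h1
    refine ⟨h1.1, h1.2, ?_⟩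
    show Z (v.take i ++ v.drop i)
    rw [List.take_append_drop]
    exact hv.1.2
  · intro p hp
    rw [Finset.mem_sigma, Finset.mem_filter] at hp
    obtain ⟨h1, h2, h3⟩ := hp
    have h4 := (mem_dec hi' (mem_irr.1 h1).1.1).2 ⟨h1, h2⟩
    rw [Finset.mem_filter, Finset.mem_filter]
    exact ⟨⟨h4.1, h3⟩, h4.2⟩
  · intro v hv
    exact List.take_append_drop i v
  · intro p hp
    rw [Finset.mem_sigma, Finset.mem_filter] at hp
    have h1 := (mem_irr.1 hp.1).1.1
    obtain ⟨p1, p2⟩ := p
    simp only at h1 ⊢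
    subst h1
    simp

end Pool.Agent.Helper63.HF
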