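import Mathlib
import Pool.Agent.Helper65.HF.StN

/-!
Module EXA of project HF.
-/

namespace Pool.Agent.Helper63.HF

open MvPolynomial Pool.Agent.Helper45 Pool.Agent.Helper65.HF

theorem wd_small {j : ℕ} (hj : 1 ≤ j) (C δ : ℝ) (hδ : 0 < δ) :
    ∃ M0 : ℕ, ∀ M ≥ M0, C * wd (j - 1) M ≤ δ * (M : ℝ) ^ j := by
  have h1 : (fun x : ℝ => Real.log x) =o[Filter.atTop] (fun x : ℝ => x) :=
    Real.isLittleO_log_id_atTop
  have h2 := h1.bound (show (0 : ℝ) < δ ^ 2 / (C ^ 2 + 1) by positivity)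
  have h3 := tendsto_natCast_atTop_atTop (R := ℝ) |>.eventually h2
  obtain ⟨M0, hM0⟩ := Filter.eventually_atTop.1 h3
  refine ⟨max M0 1, fun M hM => ?_⟩
  have hM1 : 1 ≤ M := (le_max_right _ _).trans hM
  have hM2 := hM0 M ((le_max_left _ _).trans hM)
  have hMr : (1 : ℝ) ≤ M := by exact_mod_cast hM1
  have hlog : 0 ≤ Real.log M := Real.log_nonneg hMr
  rw [Real.norm_of_nonneg hlog, Real.norm_of_nonneg (by linarith)] at hM2
  have h4 : C * Real.sqrt (M * Real.log M) ≤ δ * M := by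
    refine le_trans (le_abs_self _) (abs_le_of_sq_le_sq ?_ (by positivity)) |>.trans le_rfl
    rw [mul_pow, Real.sq_sqrt (by positivity)]
    have h5 : (C ^ 2 + 1) * Real.log M ≤ δ ^ 2 * M := by
      have := mul_le_mul_of_nonneg_left hM2 (show (0 : ℝ) ≤ C ^ 2 + 1 by positivity)
      have e : (C ^ 2 + 1) * (δ ^ 2 / (C ^ 2 + 1) * M) = δ ^ 2 * M := by
        field_simp
      rwa [e] at this
    nlinarith [mul_le_mul_of_nonneg_left h5 (show (0 : ℝ) ≤ M by linarith),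
      mul_nonneg (show (0 : ℝ) ≤ M by linarith) hlog]
  unfold wd
  obtain ⟨i, rfl⟩ : ∃ i, j = i + 1 := ⟨j - 1, by omega⟩
  rw [Nat.add_sub_cancel]
  calc C * ((M : ℝ) ^ i * Real.sqrt (M * Real.log M)) =
      (M : ℝ) ^ i * (C * Real.sqrt (M * Real.log M)) := by ring
    _ ≤ (M : ℝ) ^ i * (δ * M) := mul_le_mul_of_nonneg_left h4 (by positivity)
    _ = δ * (M : ℝ) ^ (i + 1) := by ring

theorem hEXA : sEXA := by
  intro hHUP hREC k _ _ j d cs η hj hη hZ hgap hB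
  have hj1 : 1 ≤ j := by omega
  have key : ∀ c : ℕ, ∃ M0 : ℕ, c < d → ∀ M ≥ M0, ∀ r : ℕ, (r : ℝ) ≤ (cs + η) * (M : ℝ) ^ j →
      (H k j M r c : ℤ) = EE j M r c := by
    intro c
    by_cases hcd : c < d
    swap
    · exact ⟨0, fun h => absurd h hcd⟩
    rcases lt_or_ge c j with hc | hc
    · refine ⟨0, fun _ M _ r _ => ?_⟩
      rw [(hHUP k j M r c hj1).2.2.1 hc, hREC.2.2.1 j M r c hc]
    · obtain ⟨cs', hZ'⟩ := exists_isZ hj1 hc
      have hlt := hgap c cs' hc hcd hZ'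
      obtain ⟨C, M0, h0⟩ := hB c hc hcd cs' hZ'
      obtain ⟨M1, h1⟩ := wd_small hj1 C (cs' - (cs + η)) (by linarith)
      refine ⟨max M0 M1, fun _ M hM r hr => ?_⟩
      refine h0 M ((le_max_left _ _).trans hM) r ?_
      have h2 := h1 M ((le_max_right _ _).trans hM)
      linarith
  choose M0 hM0 using key
  refine ⟨(Finset.range d).sup M0, fun M hM r hr c hc => ?_⟩
  exact hM0 c hc M ((Finset.le_sup (Finset.mem_range.2 hc)).trans hM) r hr

end Pool.Agent.Helper63.HF
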