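import Mathlib
import Pool.Agent.Helper63.HF.M_SPL

/-!
Module MNB of project HF.
-/

namespace Pool.Agent.Helper63.HF

open Pool.Agent.Helper65.HF

theorem srt_append {M : ℕ} {ν : ℕ → ℕ} {i t : ℕ} {p τ : List ℕ} (hp : p ∈ srt M i)
    (hτ : τ ∈ tl M ν i t (p.getLastD 0)) : Srt (p ++ τ) ∧ ∀ x ∈ p ++ τ, x < M := by
  rw [mem_srt] at hp
  rw [mem_tl] at hτ
  obtain ⟨h1, h2, h3⟩ := hp
  obtain ⟨⟨h4, h5, h6⟩, h7, h8⟩ := hτ
  refine ⟨List.pairwise_append.2 ⟨h2, h5, ?_⟩, ?_⟩
  · intro x hx y hy
    exact (le_last 0 h2 x hx).trans (h7 y hy)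
  · intro x hx
    rw [List.mem_append] at hx
    exact hx.elim (h3 x) (h6 x)

theorem srt_append_rep {M : ℕ} (hM : 1 ≤ M) {q : List ℕ} (h : Srt q) (h' : ∀ x ∈ q, x < M)
    (w : ℕ) : Srt (q ++ List.replicate w (M - 1)) := by
  refine List.pairwise_append.2 ⟨h, ?_, ?_⟩
  · exact List.pairwise_replicate.2 (Or.inr le_rfl)
  · intro x hx y hy
    rw [List.mem_replicate] at hy
    have := h' x hx
    omega

theorem pre_append {St : List ℕ → Prop} (hPre : Pre St) (p : List ℕ) :
    ∀ τ : List ℕ, Srt (p ++ τ) → St (p ++ τ) → St p := by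
  intro τ
  induction τ using List.reverseRecOn with
  | nil =>
    intro _ h
    rwa [List.append_nil] at h
  | append_singleton l b ih =>
    intro h1 h2
    rw [← List.append_assoc] at h1 h2
    exact ih (List.pairwise_append.1 h1).1 (hPre _ _ h1 h2)

theorem leL_rep (c : ℕ) : ∀ l : List ℕ, (∀ x ∈ l, x ≤ c) → LeL l (List.replicate l.length c)
  | [], _ => List.Forall₂.nil
  | x :: l, h => by
    rw [List.length_cons, List.replicate_succ]
    exact List.Forall₂.cons (h x (by simp)) (leL_rep c l fun y hy => h y (by simp [hy]))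

theorem leL_refl (l : List ℕ) : LeL l l := by
  induction l with
  | nil => exact List.Forall₂.nil
  | cons x l ih => exact List.Forall₂.cons le_rfl ih

theorem leL_append {a b c d : List ℕ} (h : LeL a b) (h' : LeL c d) : LeL (a ++ c) (b ++ d) := by
  induction h with
  | nil => exact h'
  | cons h1 _ ih => exact List.Forall₂.cons h1 ih

theorem rep_mem_tl {M : ℕ} {ν : ℕ → ℕ} {i t a : ℕ} (hM : 1 ≤ M) (hν : ∀ s, ν s < M)
    (ha : a ≤ M - 1) : List.replicate t (M - 1) ∈ tl M ν i t a := by
  rw [mem_tl]
  refine ⟨⟨List.length_replicate, List.pairwise_replicate.2 (Or.inr le_rfl), ?_⟩, ?_, ?_⟩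
  · intro x hx
    rw [List.mem_replicate] at hx
    omega
  · intro x hx
    rw [List.mem_replicate] at hx
    omega
  · intro u hu
    have h := hν (i + u + 1)
    rw [List.getD_eq_getElem _ _ (by rw [List.length_replicate]; exact hu),
      List.getElem_replicate]
    omega

theorem last_eq_getD {p : List ℕ} {i : ℕ} (hi : 1 ≤ i) (h : p.length = i) :
    p.getLastD 0 = p.getD (i - 1) 0 := by
  rcases List.eq_nil_or_concat p with h' | ⟨l, b, h'⟩
  · subst h'
    simp at h
    omega
  · rw [List.concat_eq_append] at h'
    subst h'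
    rw [List.getLastD_concat]
    rw [List.length_append, List.length_singleton] at h
    have e : i - 1 = l.length + 0 := by omega
    rw [e, getD_right]
    simp

theorem hMNB : sMNB := by
  intro hALP hGAM hDEC hEXT j d M ν St hj hjd hM hν hUp hPre hExt
  obtain ⟨u, rfl⟩ : ∃ u, j = u + 1 := ⟨j - 1, by omega⟩
  obtain ⟨e, rfl⟩ : ∃ e, d = e + u + 1 := ⟨d - (u + 1), by omega⟩
  have e1 : e + u + 1 - (u + 1) = e := by omega
  have e2 : e + u + 1 - 1 = e + u := by omega
  rw [e1, e2]
  rw [e2] at hExt
  rw [hDEC M ν e, hDEC M ν (e + u)]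
  have hEX := hEXT M (e + u) ν St hExt
  have key : ∀ i ∈ Finset.range (e + 1), ∀ p ∈ irr M ν i,
      num (tl M ν i (e - i) (p.getLastD 0)) (fun τ => St (p ++ τ) ∧
          ¬ St (p ++ τ ++ List.replicate (u + 1) (M - 1))) * (tl M ν 0 (e + u) 0).card ≤
        num (tl M ν i (e + u - i) (p.getLastD 0)) (fun τ => St (p ++ τ) ∧
          ¬ St (p ++ τ ++ [M - 1])) * (tl M ν 0 e 0).card := by
    intro i hi p hp
    have hi' : i ≤ e := Nat.lt_succ_iff.1 (Finset.mem_range.1 hi)
    obtain ⟨t, ht⟩ := Nat.exists_eq_add_of_le hi'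
    subst ht
    have e3 : i + t - i = t := by omega
    have e4 : i + t + u - i = t + u := by omega
    rw [e3, e4]
    have hp1 := (mem_irr.1 hp).1
    have hp2 := (mem_irr.1 hp).2
    have hps : p ∈ srt M i := mem_srt.2 hp1
    by_cases hSt : St p
    swap
    · have h0 : num (tl M ν i t (p.getLastD 0)) (fun τ => St (p ++ τ) ∧
          ¬ St (p ++ τ ++ List.replicate (u + 1) (M - 1))) = 0 := by
        refine Nat.le_zero.1 (le_trans (num_mono (Z' := fun _ => False) ?_) ?_)
        · intro τ hτ h
          exact hSt (pre_append hPre p τ (srt_append hps hτ).1 h.1)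
        · unfold num
          simp
      rw [h0, Nat.zero_mul]
      exact Nat.zero_le _
    · have h1 := hALP M ν i t u (p.getLastD 0) (fun τ => St (p ++ τ) ∧
          ¬ St (p ++ τ ++ List.replicate (u + 1) (M - 1))) (by
        intro τ hτ τ' hτ' hle hW
        refine ⟨hEX i t (by omega) p hps hSt τ hτ, fun h => hW.2 ?_⟩
        refine hUp _ _ ?_ ?_ ?_ h
        · exact srt_append_rep hM (srt_append hps hτ).1 (srt_append hps hτ).2 _
        · exact srt_append_rep hM (srt_append hps hτ').1 (srt_append hps hτ').2 _
        · exact leL_append (leL_append (leL_refl p) hle) (leL_refl _))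
      have h2 : num (tl M ν i (t + u) (p.getLastD 0)) (fun v => St (p ++ v.take t) ∧
          ¬ St (p ++ v.take t ++ List.replicate (u + 1) (M - 1))) ≤
          num (tl M ν i (t + u) (p.getLastD 0)) (fun τ => St (p ++ τ) ∧
          ¬ St (p ++ τ ++ [M - 1])) := by
        refine num_mono fun v hv h => ?_
        refine ⟨hEX i (t + u) (by omega) p hps hSt v hv, fun h' => h.2 ?_⟩
        have hl : v.length = t + u := (mem_tl.1 hv).1.1
        have hsv := srt_append hps hv
        have hvt : v = v.take t ++ v.drop t := (List.take_append_drop t v).symm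
        have hsv2 : Srt (p ++ v.take t) ∧ ∀ x ∈ p ++ v.take t, x < M := by
          constructor
          · refine List.Pairwise.sublist ?_ hsv.1
            exact (List.Sublist.append_left (List.take_sublist t v) p)
          · intro x hx
            refine hsv.2 x ?_
            rw [List.mem_append] at hx ⊢
            exact hx.imp id fun h => List.mem_of_mem_take h
        refine hUp _ _ ?_ ?_ ?_ h'
        · have := srt_append_rep hM hsv.1 hsv.2 1
          rwa [List.replicate_one] at this
        · exact srt_append_rep hM hsv2.1 hsv2.2 _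
        · have e5 : p ++ v ++ [M - 1] = (p ++ v.take t) ++ (v.drop t ++ [M - 1]) := by
            conv_lhs => rw [hvt]
            simp only [List.append_assoc]
          rw [e5]
          refine leL_append (leL_refl _) ?_
          have h6 := leL_rep (M - 1) (v.drop t ++ [M - 1]) (by
            intro x hx
            rw [List.mem_append, List.mem_singleton] at hx
            rcases hx with hx | hx
            · have := hsv.2 x (List.mem_append_right _ (List.mem_of_mem_drop hx))
              omega
            · exact hx.le)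
          have e6 : (v.drop t ++ [M - 1]).length = u + 1 := by
            rw [List.length_append, List.length_drop, List.length_singleton]
            omega
          rwa [e6] at h6
      have h3 : (tl M ν 0 (i + t + u) 0).card * (tl M ν i t (p.getLastD 0)).card ≤
          (tl M ν i (t + u) (p.getLastD 0)).card * (tl M ν 0 (i + t) 0).card := by
        rcases Nat.eq_zero_or_pos i with h | h
        · subst h
          have hp0 : p = [] := List.length_eq_zero_iff.1 hp1.1
          subst hp0
          simp only [List.getLastD_nil, Nat.zero_add]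
          exact le_rfl
        · refine hGAM M ν i t u _ h ?_
          rw [last_eq_getD h hp1.1]
          exact (hp2.resolve_left (by omega)).le
      have ha : p.getLastD 0 ≤ M - 1 := by
        rcases last_cases p 0 with ⟨_, h⟩ | h
        · rw [h]
          exact Nat.zero_le _
        · have := hp1.2.2 _ h
          omega
      have h4 : 0 < (tl M ν i t (p.getLastD 0)).card :=
        Finset.card_pos.2 ⟨_, rep_mem_tl hM hν ha⟩
      set A := num (tl M ν i t (p.getLastD 0)) (fun τ => St (p ++ τ) ∧
          ¬ St (p ++ τ ++ List.replicate (u + 1) (M - 1))) with hA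
      set Vp := num (tl M ν i (t + u) (p.getLastD 0)) (fun τ => St (p ++ τ) ∧
          ¬ St (p ++ τ ++ [M - 1])) with hVp
      set x := (tl M ν i t (p.getLastD 0)).card with hx
      set y := (tl M ν i (t + u) (p.getLastD 0)).card with hy
      set n := (tl M ν 0 (i + t + u) 0).card with hn
      set m := (tl M ν 0 (i + t) 0).card with hm
      have h5 : A * y ≤ Vp * x := h1.trans (Nat.mul_le_mul_right x h2)
      refine Nat.le_of_mul_le_mul_right (c := x) ?_ h4
      calc A * n * x = A * (n * x) := by ring
        _ ≤ A * (y * m) := Nat.mul_le_mul_left A h3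
        _ = (A * y) * m := by ring
        _ ≤ (Vp * x) * m := Nat.mul_le_mul_right m h5
        _ = Vp * m * x := by ring
  rw [Finset.sum_mul, Finset.sum_mul]
  refine le_trans (Finset.sum_le_sum fun i hi => ?_) (Finset.sum_le_sum_of_subset
    (Finset.range_mono (show e + 1 ≤ e + u + 1 by omega)))
  rw [Finset.sum_mul, Finset.sum_mul]
  exact Finset.sum_le_sum fun p hp => key i hi p hp

end Pool.Agent.Helper63.HF
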